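import Pool.Agent.Work.MP_d2e081_al.Main
import Pool.Agent.Work.MP_d2e081_al.Rip2.C

/-! Translations and a point mass with values in the levels of the period doubling algebra. -/

set_option autoImplicit false

namespace Pool.Agent.Work.MP_d2e081_al.Tri3

open Module

open FreeGroup (of)

open scoped Classical

section
variable (K : Type) [Field K] {Y : Type} (M : Type) [AddCommGroup M] [Module K M]

/-- The diagonal permutation operators. -/
def Dm : Equiv.Perm Y →* (End K (Fin 3 → Y → M))ˣ := MonoidHom.toHomUnits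
  { toFun σ := (LinearMap.funLeft K M σ.symm).compLeft (Fin 3)
    map_one' := rfl
    map_mul' _ _ := rfl }

variable {K M}

theorem Dm_apply (σ : Equiv.Perm Y) (v : Fin 3 → Y → M) (k : Fin 3) (y : Y) :
    (Dm K M σ).val v k y = v k (σ.symm y) := rfl

theorem Dm_conj (σ : Equiv.Perm Y) (a b : Fin 3) (r : End K (Y → M)) :
    Dm K M σ * xe a b r * (Dm K M σ)⁻¹ = xe a b ((LinearMap.funLeft K M σ.symm : End K (Y → M)) *
      r * (LinearMap.funLeft K M σ : End K (Y → M))) := by
  by_cases h : a = b
  · rw [h, xe_diag, xe_diag, mul_one, mul_inv_cancel]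
  · rw [mul_inv_eq_iff_eq_mul]
    refine Units.ext (LinearMap.ext fun v => funext fun k => funext fun y => ?_)
    have : LinearMap.funLeft K M σ ((Dm K M σ).val v b) = v b :=
      funext fun z => congrArg (v b) (σ.symm_apply_apply z)
    rw [Units.val_mul, Units.val_mul, End.mul_apply, End.mul_apply, Dm_apply, xe_apply h,
      xe_apply h, End.mul_apply, End.mul_apply, this]
    by_cases hk : k = a
    · subst hk
      simp [Dm_apply, LinearMap.funLeft_apply]
    · simp [Dm_apply, hk]

theorem Dm_mem (h2 : ∀ m : M, m + m = 0) [Finite Y] (σ : Equiv.Perm Y) :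
    Dm K M σ ∈ EL K (Y → M) := by
  induction σ using Equiv.Perm.swap_induction_on with
  | one =>
    rw [map_one]
    exact one_mem _
  | swap_mul f x y hxy ih =>
    rw [map_mul]
    refine mul_mem ?_ ih
    let a : End K (Y → M) := (LinearMap.single K (fun _ => M) x + LinearMap.single K (fun _ => M) y)
      ∘ₗ LinearMap.proj x
    let b : End K (Y → M) := LinearMap.single K (fun _ => M) x ∘ₗ
      ((LinearMap.proj x : (Y → M) →ₗ[K] M) + (LinearMap.proj y : (Y → M) →ₗ[K] M))
    have h3 : ∀ m m' : M, m + (m + m') = m' := fun m m' => by rw [← add_assoc, h2, zero_add]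
    have hba : ∀ v, b (a v) = 0 := fun v => by
      simp [a, b, hxy, hxy.symm, h2]
    have hab : ∀ v z, v (Equiv.swap x y z) = v z + a (b v) z := fun v z => by
      by_cases h1 : z = x
      · subst h1
        simp [a, b, hxy, h3]
      · by_cases h2 : z = y
        · subst h2
          simp [a, b, h1, add_comm (v x), h3]
        · simp [a, b, h1, h2, Equiv.swap_apply_of_ne_of_ne]
    have : Dm K M (Equiv.swap x y) = (xe 0 1 a * xe 1 0 b * xe 0 1 (-a) * xe 1 0 (-b)) *
        ((xe 1 2 a * xe 2 1 b * xe 1 2 (-a) * xe 2 1 (-b)) *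
          (xe 2 0 a * xe 0 2 b * xe 2 0 (-a) * xe 0 2 (-b))) := by
      refine Units.ext (LinearMap.ext fun v => funext fun k => funext fun z => ?_)
      rw [Units.val_mul (_ * _ * _ * _), End.mul_apply, Rips.comm_apply hba (by decide),
        Units.val_mul (_ * _ * _ * _), End.mul_apply, Rips.comm_apply hba (by decide),
        Rips.comm_apply hba (by decide), Dm_apply, Equiv.symm_swap, hab (v k) z]
      fin_cases k <;> simp
    rw [this]
    have m : ∀ i j, xe i j a * xe j i b * xe i j (-a) * xe j i (-b) ∈ EL K (Y → M) := fun i j =>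
      mul_mem (mul_mem (mul_mem (xe_mem _ _ _) (xe_mem _ _ _)) (xe_mem _ _ _)) (xe_mem _ _ _)
    exact mul_mem (m _ _) (mul_mem (m _ _) (m _ _))

end

variable (K : Type) [Field K] {β γ : Type} (L : ℕ → Subgroup (FreeGroup β)) [∀ i, (L i).Normal]

/-- The space of level `n`. -/
abbrev Vn (n : ℕ) : Type := FreeGroup β ⧸ L n → Un K n

/-- The product algebra. -/
abbrev P3 : Type := ∀ n, End K (Vn K L n)

/-- The left translations. -/
def lam (g : FreeGroup β) : P3 K L := fun i =>
  LinearMap.funLeft K _ fun y => (g : FreeGroup β ⧸ L i)⁻¹ * y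

/-- The right translations. -/
def rho (g : FreeGroup β) : P3 K L := fun i =>
  LinearMap.funLeft K _ fun y => y * (g : FreeGroup β ⧸ L i)

/-- The point mass. -/
noncomputable def ee : P3 K L := fun i =>
  LinearMap.single K (fun _ => Un K i) 1 ∘ₗ LinearMap.proj 1

/-- The action on values. -/
def tau : PP K →ₐ[K] P3 K L where
  toFun r n := (r n).compLeft _
  map_one' := rfl
  map_mul' _ _ := rfl
  map_zero' := rfl
  map_add' _ _ := rfl
  commutes' _ := rfl

/-- The generators of the small algebra. -/
noncomputable def g0 : Option (β ⊕ β) ⊕ Fin 4 → P3 K L :=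
  Sum.elim (fun o => o.elim (ee K L) (Sum.elim (fun b => lam K L (of b)) fun b => lam K L (of b)⁻¹))
    fun i => tau K L (gen K i)

/-- The generators of the large algebra. -/
noncomputable def g1 (c : FreeGroup γ →* FreeGroup β) :
    (Option (β ⊕ β) ⊕ Fin 4) ⊕ γ ⊕ γ → P3 K L :=
  Sum.elim (g0 K L) (Sum.elim (fun a => rho K L (c (of a))) fun a => rho K L (c (of a)⁻¹))

/-- The small algebra. -/
noncomputable def R0 : Subalgebra K (P3 K L) := Algebra.adjoin K (Set.range (g0 K L))

/-- The large algebra. -/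
noncomputable def R1 (c : FreeGroup γ →* FreeGroup β) : Subalgebra K (P3 K L) :=
  Algebra.adjoin K (Set.range (g1 K L c))

variable {K L}

theorem g0_mem (o : Option (β ⊕ β) ⊕ Fin 4) : g0 K L o ∈ R0 K L := Algebra.subset_adjoin ⟨o, rfl⟩

theorem R0_le (c : FreeGroup γ →* FreeGroup β) : R0 K L ≤ R1 K L c :=
  Algebra.adjoin_mono (by
    rintro _ ⟨o, rfl⟩
    exact ⟨Sum.inl o, rfl⟩)

omit [∀ i, (L i).Normal] in
theorem tau_apply (r : PP K) (n : ℕ) (v : Vn K L n) (y : FreeGroup β ⧸ L n) :
    tau K L r n v y = r n (v y) := rfl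

theorem ee_apply (n : ℕ) (v : Vn K L n) (y : FreeGroup β ⧸ L n) :
    ee K L n v y = if y = 1 then v y else 0 := by
  by_cases h : y = 1 <;> simp [ee, h]

theorem tau_mem {r : PP K} (h : r ∈ RR K) : tau K L r ∈ R0 K L :=
  (show RR K ≤ (R0 K L).comap (tau K L) from Algebra.adjoin_le (by
    rintro _ ⟨i, rfl⟩
    exact g0_mem (Sum.inr i))) h

theorem lam_mem (g : FreeGroup β) : lam K L g ∈ R0 K L := by
  induction g using FreeGroup.induction_on with
  | C1 =>
    have : lam K L 1 = 1 := funext fun i => LinearMap.ext fun v => funext fun y => by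
      simp [lam, LinearMap.funLeft_apply]
    exact this ▸ one_mem _
  | of b => exact g0_mem (Sum.inl (some (Sum.inl b)))
  | inv_of b _ => exact g0_mem (Sum.inl (some (Sum.inr b)))
  | mul x y hx hy =>
    have : lam K L (x * y) = lam K L x * lam K L y := funext fun i => LinearMap.ext fun v =>
      funext fun y => by simp [lam, LinearMap.funLeft_apply, mul_assoc]
    exact this ▸ mul_mem hx hy

theorem rho_mul (g h : FreeGroup β) : rho K L (g * h) = rho K L g * rho K L h := by
  funext i
  refine LinearMap.ext fun v => funext fun y => ?_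
  simp [rho, LinearMap.funLeft_apply, mul_assoc]

theorem rho_one : rho K L 1 = 1 := funext fun i => LinearMap.ext fun v => funext fun y => by
  simp [rho, LinearMap.funLeft_apply]

theorem rho_mem (c : FreeGroup γ →* FreeGroup β) (g : FreeGroup γ) :
    rho K L (c g) ∈ R1 K L c := by
  induction g using FreeGroup.induction_on with
  | C1 =>
    rw [map_one, rho_one]
    exact one_mem _
  | of b => exact Algebra.subset_adjoin ⟨Sum.inr (Sum.inl b), rfl⟩
  | inv_of b _ => exact Algebra.subset_adjoin ⟨Sum.inr (Sum.inr b), rfl⟩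
  | mul x y hx hy =>
    rw [map_mul, rho_mul]
    exact mul_mem hx hy

theorem single_mem3 [∀ i, (L i).FiniteIndex] (n : ℕ) (r : End K (Vn K L n)) :
    Pi.single n r ∈ R0 K L := by
  have := Fintype.ofFinite (FreeGroup β ⧸ L n)
  have h : Pi.single n r = ∑ a : FreeGroup β ⧸ L n, ∑ b : FreeGroup β ⧸ L n,
      lam K L a.out * (ee K L * tau K L (Pi.single n (LinearMap.proj a ∘ₗ r ∘ₗ
        LinearMap.single K (fun _ => Un K n) b))) * lam K L b.out⁻¹ := by
    funext m
    refine LinearMap.ext fun v => funext fun y => ?_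
    simp only [Finset.sum_apply, LinearMap.sum_apply, Pi.mul_apply, End.mul_apply, ee_apply, lam,
      LinearMap.funLeft_apply, tau_apply]
    by_cases hm : m = n
    · subst hm
      rw [Finset.sum_eq_single y]
      · conv_lhs => rw [Pi.single_eq_same, ← Finset.univ_sum_single v, map_sum, Finset.sum_apply]
        simp
      · intro a _ ha
        simp [inv_mul_eq_one, ha]
      · simp
    · simp [hm]
  rw [h]
  exact sum_mem fun a _ => sum_mem fun b _ => mul_mem (mul_mem (lam_mem _)
    (mul_mem (g0_mem (Sum.inl none)) (tau_mem (single_mem _ _)))) (lam_mem _)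

theorem rho_conj (g : FreeGroup β) {r : P3 K L} (hr : r ∈ R0 K L) :
    rho K L g * r * rho K L g⁻¹ ∈ R0 K L := by
  have h1 : rho K L g⁻¹ * rho K L g = 1 := by rw [← rho_mul, inv_mul_cancel, rho_one]
  have h2 : rho K L g * rho K L g⁻¹ = 1 := by rw [← rho_mul, mul_inv_cancel, rho_one]
  have h3 : ∀ h, rho K L g * lam K L h * rho K L g⁻¹ ∈ R0 K L := fun h => by
    have : rho K L g * lam K L h * rho K L g⁻¹ = lam K L h := funext fun i =>
      LinearMap.ext fun v => funext fun y => by simp [rho, lam, LinearMap.funLeft_apply, mul_assoc]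
    rw [this]
    exact lam_mem h
  induction hr using Algebra.adjoin_induction with
  | mem x hx =>
    obtain ⟨(_ | b | b) | b, rfl⟩ := hx
    · have : rho K L g * ee K L * rho K L g⁻¹ = lam K L g⁻¹ * ee K L * lam K L g := funext fun i =>
        LinearMap.ext fun v => funext fun y => by
          simp [rho, lam, LinearMap.funLeft_apply, ee_apply, mul_eq_one_comm (a := y)]
      exact this.symm ▸ mul_mem (mul_mem (lam_mem _) (g0_mem (Sum.inl none))) (lam_mem _)
    · exact h3 _
    · exact h3 _
    · have : rho K L g * tau K L (gen K b) * rho K L g⁻¹ = tau K L (gen K b) := funext fun i =>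
        LinearMap.ext fun v => funext fun y => by simp [rho, LinearMap.funLeft_apply, tau_apply]
      exact this.symm ▸ g0_mem (Sum.inr b)
  | algebraMap a =>
    rw [← Algebra.commutes, mul_assoc, h2, mul_one]
    exact algebraMap_mem _ _
  | add x y _ _ hx hy =>
    rw [mul_add, add_mul]
    exact add_mem hx hy
  | mul x y _ _ hx hy =>
    have := mul_mem hx hy
    rwa [mul_assoc (_ * x), ← mul_assoc (rho K L g⁻¹), ← mul_assoc (rho K L g⁻¹), h1, one_mul,
      ← mul_assoc, mul_assoc _ x y] at this

/-- Elements of the small algebra have bounded propagation. -/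
theorem bounded {r : P3 K L} (hr : r ∈ R0 K L) : ∃ S : Finset (FreeGroup β), ∀ i v y,
    (∀ s ∈ S, v ((s : FreeGroup β ⧸ L i) * y) = 0) → r i v y = 0 := by
  have h0 : ∀ r : P3 K L, (∀ i v y, v y = 0 → r i v y = 0) → ∃ S : Finset (FreeGroup β), ∀ i v y,
      (∀ s ∈ S, v ((s : FreeGroup β ⧸ L i) * y) = 0) → r i v y = 0 := fun r hr =>
    ⟨{1}, fun i v y h => hr i v y (by simpa using h 1 (by simp))⟩
  induction hr using Algebra.adjoin_induction with
  | mem x hx =>
    obtain ⟨(_ | b | b) | b, rfl⟩ := hx
    · exact h0 _ fun i v y h => (ee_apply _ _ _).trans (by simp [h])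
    · exact ⟨{(of b)⁻¹}, fun i v y h => h (of b)⁻¹ (by simp)⟩
    · exact ⟨{(of b)⁻¹⁻¹}, fun i v y h => h (of b)⁻¹⁻¹ (by simp)⟩
    · exact h0 _ fun i v y h => (tau_apply _ _ _ _).trans (by rw [h, map_zero])
  | algebraMap a => exact h0 _ fun i v y h => by simp [h]
  | add x y _ _ hx hy =>
    obtain ⟨S, hS⟩ := hx
    obtain ⟨T, hT⟩ := hy
    refine ⟨S ∪ T, fun i v z h => ?_⟩
    rw [Pi.add_apply, LinearMap.add_apply, Pi.add_apply,
      hS i v z fun s hs => h s (Finset.mem_union_left _ hs),
      hT i v z fun s hs => h s (Finset.mem_union_right _ hs), add_zero]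
  | mul x y _ _ hx hy =>
    obtain ⟨S, hS⟩ := hx
    obtain ⟨T, hT⟩ := hy
    refine ⟨Finset.image₂ (· * ·) T S, fun i v z h => hS i _ z fun s hs => hT i v _ fun t ht => ?_⟩
    rw [← mul_assoc]
    exact h (t * s) (Finset.mem_image₂_of_mem ht hs)

end Pool.Agent.Work.MP_d2e081_al.Tri3
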