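import Pool.Agent.Work.MP_d2e081_al.Tri3.A

/-! Elementary groups over algebras containing the small algebra. -/

set_option autoImplicit false

namespace Pool.Agent.Work.MP_d2e081_al.Tri3

open Module Filter

open Rips (rp)

open scoped Classical

variable (K : Type) [Field K] {β γ : Type} (L : ℕ → Subgroup (FreeGroup β)) [∀ i, (L i).Normal]

/-- The product of the linear groups. -/
abbrev G3 : Type := ∀ n, (End K (Fin 3 → Vn K L n))ˣ

/-- The elementary families. -/
def X3 (a b : Fin 3) (r : P3 K L) : G3 K L := fun i => xe a b (r i)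

/-- The diagonal right translations. -/
def th : FreeGroup β →* G3 K L :=
  MonoidHom.pi fun i => (Dm K _).comp ((rp _).comp (QuotientGroup.mk' (L i)))

/-- Truncation. -/
def tr3 (s : ℕ) : G3 K L →* G3 K L where
  toFun g n := if n < s then g n else 1
  map_one' := funext fun n => ite_self _
  map_mul' g h := funext fun n => by
    rw [Pi.mul_apply, Pi.mul_apply]
    split_ifs
    exacts [rfl, (one_mul _).symm]

/-- Right translations in the three coordinates. -/
def Dv : (Fin 3 → FreeGroup β) →* G3 K L := MonoidHom.pi fun i => MonoidHom.toHomUnits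
  { toFun g := LinearMap.pi fun k => rho K L (g k) i ∘ₗ LinearMap.proj k
    map_one' := LinearMap.ext fun v => funext fun k => by simp [rho_one]
    map_mul' g h := LinearMap.ext fun v => funext fun k => by simp [rho_mul] }

variable {K L}

/-- The elementary group over an algebra. -/
def Gm (R : Subalgebra K (P3 K L)) : Subgroup (G3 K L) :=
  Subgroup.closure {g | ∃ a b, ∃ r ∈ R, g = X3 K L a b r}

/-- The elementary generators. -/
def XR (R : Subalgebra K (P3 K L)) (a b : Fin 3) (r : R) : Gm R :=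
  ⟨X3 K L a b r, Subgroup.subset_closure ⟨a, b, r, r.2, rfl⟩⟩

section
omit [∀ i, (L i).Normal]

theorem XR_st (R : Subalgebra K (P3 K L)) : St3 (XR R) where
  add i j r s := Subtype.ext (funext fun n => xe_st.add i j (r.1 n) (s.1 n))
  comm i j k l r s h1 h2 :=
    Subtype.ext (funext fun n => xe_st.comm i j k l (r.1 n) (s.1 n) h1 h2)
  st i j k r s h1 h2 h3 := Subtype.ext (funext fun n => xe_st.st i j k (r.1 n) (s.1 n) h1 h2 h3)
  diag i r := Subtype.ext (funext fun n => xe_st.diag i (r.1 n))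

theorem XR_gen {R : Subalgebra K (P3 K L)} (N : Subgroup (Gm R)) (h : ∀ i j r, XR R i j r ∈ N) :
    N = ⊤ := by
  refine top_unique (Subgroup.closure_closure_coe_preimage.ge.trans ((Subgroup.closure_le _).2 ?_))
  rintro ⟨_, hg⟩ ⟨i, j, r, hr, rfl⟩
  exact h i j ⟨r, hr⟩

theorem Gm_tri {ι : Type} [Fintype ι] (g : ι → P3 K L) :
    Nonempty (Tri K (Option ι → K) (Gm (Algebra.adjoin K (Set.range g)))) :=
  (XR_st (Algebra.adjoin K (Set.range g))).tri (K := K)
    (fun i => ⟨g i, Algebra.subset_adjoin ⟨i, rfl⟩⟩) (by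
    refine top_unique (Algebra.adjoin_adjoin_coe_preimage.ge.trans (Algebra.adjoin_mono ?_))
    rintro ⟨_, hg⟩ ⟨i, rfl⟩
    exact ⟨i, rfl⟩) XR_gen

theorem Gm_mono {R R' : Subalgebra K (P3 K L)} (h : R ≤ R') : Gm R ≤ Gm R' :=
  Subgroup.closure_mono fun _ ⟨a, b, r, hr, e⟩ => ⟨a, b, r, h hr, e⟩

theorem Gm_EL {R : Subalgebra K (P3 K L)} {g : G3 K L} (hg : g ∈ Gm R) (n : ℕ) :
    g n ∈ EL K (Vn K L n) := by
  refine (show Gm R ≤ (EL K (Vn K L n)).comap (Pi.evalMonoidHom _ n) from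
    (Subgroup.closure_le _).2 ?_) hg
  rintro _ ⟨i, j, r, -, rfl⟩
  exact xe_mem _ _ _

end

theorem tr3_mem [∀ i, (L i).FiniteIndex] {g : G3 K L} (hg : ∀ n, g n ∈ EL K (Vn K L n)) (s : ℕ) :
    tr3 K L s g ∈ Gm (R0 K L) := by
  refine Submonoid.pi_mem_of_mulSingle_mem_aux (Finset.range s) _
    (fun i hi => if_neg (by simpa using hi)) fun i hi => ?_
  rw [show tr3 K L s g i = g i from if_pos (by simpa using hi)]
  refine (show EL K _ ≤ (Gm (R0 K L)).comap (MonoidHom.mulSingle _ i) from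
    (Subgroup.closure_le _).2 ?_) (hg i)
  rintro _ ⟨a, b, r, rfl⟩
  refine Subgroup.subset_closure ⟨a, b, _, single_mem3 i r, funext fun m => ?_⟩
  by_cases h : m = i
  · subst h
    simp [X3]
  · simp [X3, h, xe_st.zero]

theorem exists_eps3 {R : Subalgebra K (P3 K L)} (hR : R0 K L ≤ R) (N : Subgroup (Gm R)) [N.Normal]
    [N.FiniteIndex] : ∃ s, ∃ b : R, b.1 = tau K L (1 - eps K s) ∧ ∀ i j, XR R i j b ∈ N := by
  have st := XR_st R
  let T : ∀ r ∈ RR K, R := fun r h => ⟨tau K L r, hR (tau_mem h)⟩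
  have hc : ∀ a : Gm R, ∀ g ∈ N, a * g * a⁻¹ ∈ N := fun a g hg => ‹N.Normal›.conj_mem g hg a
  obtain ⟨k, l, hkl, e⟩ := Finite.exists_ne_map_eq_of_infinite
    fun k : ℤ => (XR R 2 0 (T _ (sh_mem k)) : Gm R ⧸ N)
  rw [QuotientGroup.eq, ← st.neg, ← st.add] at e
  have e' := st.mul_left (s := T _ (sh_mem (-k)))
    (st.all (fun i j g hg => ⟨hc _ g hg, by simpa using hc (XR R i j 1)⁻¹ g hg⟩) e)
    (fun i j => hc _)
  obtain ⟨s, m, hm, hs⟩ := Nat.exists_eq_two_pow_mul_odd
    (Int.natAbs_ne_zero.2 (sub_ne_zero.2 hkl.symm))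
  refine ⟨s, ideal_eps (K := K) (I := fun a => ∃ b : R, b.1 = tau K L a ∧ ∀ i j, XR R i j b ∈ N)
    ⟨0, rfl, fun i j => ?_⟩ ?_ ?_ ?_ (s := s) (M := l - k) ?_ ?_ ⟨_, ?_, e'⟩⟩
  · rw [st.zero]
    exact N.one_mem
  · rintro _ _ ⟨a, ha, h1⟩ ⟨b, hb, h2⟩
    refine ⟨a + b, by rw [map_add, ← ha, ← hb]; rfl, fun i j => ?_⟩
    rw [st.add]
    exact N.mul_mem (h1 i j) (h2 i j)
  · rintro r hr _ ⟨a, ha, h1⟩
    exact ⟨T r hr * a, by rw [map_mul, ← ha]; rfl, st.mul_left h1 fun i j => hc _⟩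
  · rintro r hr _ ⟨a, ha, h1⟩
    exact ⟨a * T r hr, by rw [map_mul, ← ha]; rfl, st.mul_right h1 fun i j => hc _⟩
  · rw [← Int.dvd_natAbs, hs]
    push_cast
    exact dvd_mul_right _ _
  · rw [← Int.dvd_natAbs, hs, pow_succ]
    push_cast
    rw [mul_dvd_mul_iff_left (by positivity)]
    exact fun h => hm.not_two_dvd_nat (Int.natCast_dvd_natCast.1 h)
  · change tau K L (sh K (-k)) * (-tau K L (sh K k) + tau K L (sh K l)) = _
    rw [← map_neg, ← map_add, ← map_mul, neg_add_eq_sub, mul_sub, ← sh_add, ← sh_add,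
      neg_add_cancel, sh_zero, neg_add_eq_sub]

/-- Every finite quotient factors through a truncation. -/
theorem exists_trunc3 [∀ i, (L i).FiniteIndex] {R : Subalgebra K (P3 K L)} (hR : R0 K L ≤ R)
    (N : Subgroup (Gm R)) [N.Normal] [N.FiniteIndex] : ∃ s, ∀ g : Gm R,
      (⟨_, Gm_mono hR (tr3_mem (Gm_EL g.2) s)⟩ : Gm R)⁻¹ * g ∈ N := by
  obtain ⟨s, b, hb, h⟩ := exists_eps3 hR N
  have st := XR_st R
  let t : Gm R →* Gm R := ((tr3 K L s).comp (Gm R).subtype).codRestrict _ fun g =>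
    Gm_mono hR (tr3_mem (Gm_EL g.2) s)
  refine ⟨s, fun g => QuotientGroup.eq.1 ?_⟩
  have := XR_gen (((QuotientGroup.mk' N).comp t).eqLocus (QuotientGroup.mk' N)) fun i j r => by
    let a : R := ⟨_, hR (tau_mem (eps_mem s))⟩
    have e : b * r = -(a * r) + r := Subtype.ext (by
      rw [Subalgebra.coe_mul, hb, map_sub, map_one, sub_mul, one_mul, ← neg_add_eq_sub]
      rfl)
    have e' : XR R i j (a * r) = t (XR R i j r) := Subtype.ext (funext fun n => by
      change xe i j (tau K L (eps K s) n * r.1 n) = if n < s then xe i j (r.1 n) else 1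
      split_ifs with hn
      · rw [show tau K L (eps K s) n = 1 from LinearMap.ext fun v => funext fun y => by
          simp [tau_apply, eps, hn], one_mul]
      · rw [show tau K L (eps K s) n = 0 from LinearMap.ext fun v => funext fun y => by
          simp [tau_apply, eps, hn], zero_mul, xe_st.zero])
    have := st.mul_right (s := r) h (fun i j g hg => ‹N.Normal›.conj_mem g hg _) i j
    rw [e, st.add, st.neg, e', ← QuotientGroup.eq] at this
    exact this
  exact (this.symm ▸ Subgroup.mem_top g : g ∈ MonoidHom.eqLocus _ _)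

theorem th_apply (g : FreeGroup β) (i : ℕ) (v : Fin 3 → Vn K L i) (k : Fin 3)
    (y : FreeGroup β ⧸ L i) : (th K L g i).val v k y = v k (y * g) := by
  simp [th, Dm_apply, rp]

theorem th_conj (g : FreeGroup β) {x : G3 K L} (hx : x ∈ Gm (R0 K L)) :
    th K L g * x * (th K L g)⁻¹ ∈ Gm (R0 K L) := by
  refine (show Gm (R0 K L) ≤ (Gm (R0 K L)).comap (MulAut.conj (th K L g)).toMonoidHom from
    (Subgroup.closure_le _).2 ?_) hx
  rintro _ ⟨a, b, r, hr, rfl⟩
  refine Subgroup.subset_closure ⟨a, b, _, rho_conj g hr, funext fun i => ?_⟩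
  refine (Dm_conj (rp _ (g : FreeGroup β ⧸ L i)) a b (r i)).trans (congrArg (xe a b) ?_)
  refine LinearMap.ext fun v => funext fun y => ?_
  simp [rho, rp, LinearMap.funLeft_apply]

theorem th_fin [CharP K 2] [∀ i, (L i).FiniteIndex] {g : FreeGroup β}
    (hg : ∀ᶠ n in atTop, g ∈ L n) : th K L g ∈ Gm (R0 K L) := by
  obtain ⟨s, hs⟩ := eventually_atTop.1 hg
  refine (congrArg (· ∈ Gm (R0 K L)) (funext fun n => ?_)).mp (tr3_mem (g := th K L g)
    (fun n => Dm_mem (fun m => funext fun j => CharTwo.add_self_eq_zero (m j)) _) s)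
  change (if n < s then th K L g n else 1) = Dm K _ (rp _ (g : FreeGroup β ⧸ L n))
  split_ifs with h
  · rfl
  · rw [(QuotientGroup.eq_one_iff _).2 (hs n (not_lt.1 h)), map_one, map_one]

theorem bounded3 {x : G3 K L} (hx : x ∈ Gm (R0 K L)) : ∃ S : Finset (FreeGroup β), ∀ i v y,
    (∀ s ∈ S, ∀ k, v k ((s : FreeGroup β ⧸ L i) * y) = 0) → ∀ k, (x i).val v k y = 0 := by
  have key : ∀ a b, ∀ r ∈ R0 K L, ∃ S : Finset (FreeGroup β), ∀ i v y,
      (∀ s ∈ S, ∀ k, v k ((s : FreeGroup β ⧸ L i) * y) = 0) →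
        ∀ k, (X3 K L a b r i).val v k y = 0 := fun a b r hr => by
    obtain ⟨S, hS⟩ := bounded hr
    refine ⟨insert 1 S, fun i v y h k => ?_⟩
    have h1 := h 1 (Finset.mem_insert_self _ _) k
    rw [QuotientGroup.mk_one, one_mul] at h1
    have h2 := hS i (v b) y fun s hs => h s (Finset.mem_insert_of_mem hs) b
    by_cases hab : a = b
    · rw [X3, hab, xe_diag]
      exact h1
    · rw [X3, xe_apply hab, Pi.add_apply, Pi.add_apply, h1, zero_add]
      by_cases hk : k = a
      · rw [hk, Pi.single_eq_same, h2]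
      · rw [Pi.single_eq_of_ne hk, Pi.zero_apply]
  induction hx using Subgroup.closure_induction'' with
  | one => simpa [X3, xe_diag] using key 0 0 0 (zero_mem _)
  | mem x hx =>
    obtain ⟨a, b, r, hr, rfl⟩ := hx
    exact key a b r hr
  | inv_mem x hx =>
    obtain ⟨a, b, r, hr, rfl⟩ := hx
    have : (X3 K L a b r)⁻¹ = X3 K L a b (-r) := funext fun i => (xe_st.neg a b (r i)).symm
    rw [this]
    exact key a b _ (neg_mem hr)
  | mul x y _ _ hx hy =>
    obtain ⟨S, hS⟩ := hx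
    obtain ⟨T, hT⟩ := hy
    refine ⟨Finset.image₂ (· * ·) T S, fun i v z h =>
      hS i _ z fun s hs => hT i v _ fun t ht k => ?_⟩
    rw [← mul_assoc]
    exact h (t * s) (Finset.mem_image₂_of_mem ht hs) k

theorem th_bounded {g : FreeGroup β} (h : th K L g ∈ Gm (R0 K L)) :
    ∃ S : Finset (FreeGroup β), ∀ i (y : FreeGroup β ⧸ L i), ∃ s ∈ S,
      (s : FreeGroup β ⧸ L i) * y = y * g := by
  obtain ⟨S, hS⟩ := bounded3 h
  refine ⟨S, fun i y => ?_⟩
  by_contra hc
  push Not at hc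
  have := hS i (fun _ => Pi.single (y * g) 1) y (fun s hs _ => Pi.single_eq_of_ne (hc s hs) _) 0
  rw [th_apply, Pi.single_eq_same] at this
  exact one_ne_zero (congrFun this 0)

theorem Dv_apply (g : Fin 3 → FreeGroup β) (i : ℕ) (v : Fin 3 → Vn K L i)
    (k : Fin 3) : (Dv K L g i).val v k = rho K L (g k) i (v k) := rfl

theorem Dv_mem (c : FreeGroup γ →* FreeGroup β) (d : FreeGroup γ) {a b : Fin 3} (h : a ≠ b) :
    Dv K L (Pi.mulSingle a (c d) * Pi.mulSingle b (c d⁻¹)) ∈ Gm (R1 K L c) := by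
  have m : ∀ a b, ∀ r ∈ R1 K L c, X3 K L a b r ∈ Gm (R1 K L c) := fun a b r hr =>
    Subgroup.subset_closure ⟨a, b, r, hr, rfl⟩
  refine (congrArg (· ∈ Gm (R1 K L c)) (funext fun i => Units.ext (LinearMap.ext fun v =>
    funext fun k => ?_))).mp (mul_mem (mul_mem (mul_mem (m a b _ (rho_mem c d))
      (m b a _ (neg_mem (rho_mem c d⁻¹)))) (m a b _ (rho_mem c d))) (mul_mem (mul_mem
        (m a b _ (neg_mem (one_mem _))) (m b a _ (one_mem _))) (m a b _ (neg_mem (one_mem _)))))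
  refine (Rip2.white_apply (a := rho K L (c d) i) (a' := rho K L (c d⁻¹) i) (fun x => ?_)
    (fun x => ?_) h v k).trans ?_
  · rw [← End.mul_apply, ← Pi.mul_apply, ← rho_mul, ← map_mul, mul_inv_cancel, map_one, rho_one]
    rfl
  · rw [← End.mul_apply, ← Pi.mul_apply, ← rho_mul, ← map_mul, inv_mul_cancel, map_one, rho_one]
    rfl
  · rw [Dv_apply]
    split_ifs with h3 h4
    · subst h3
      simp [h]
    · subst h4
      simp [h3]
    · simp [h3, h4, rho_one]

theorem th_comm (c : FreeGroup γ →* FreeGroup β) (d e : FreeGroup γ) :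
    th K L (c (d * e * d⁻¹ * e⁻¹)) ∈ Gm (R1 K L c) := by
  have h1 : ∀ a b : Fin 3, a ≠ b →
      Dv K L (Pi.mulSingle a (c (d * e * d⁻¹ * e⁻¹))) ∈ Gm (R1 K L c) := fun a b h => by
    have := mul_mem (mul_mem (Dv_mem (K := K) (L := L) c (d * e) h) (Dv_mem c d⁻¹ h))
      (Dv_mem c e⁻¹ h)
    rw [← map_mul, ← map_mul] at this
    refine (congrArg (fun g => Dv K L g ∈ Gm (R1 K L c)) (funext fun k => ?_)).mp this
    by_cases h3 : k = a
    · subst h3
      simp [h]
    · by_cases h4 : k = b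
      · subst h4
        simp [h3]
      · simp [h3, h4]
  have := mul_mem (mul_mem (h1 0 1 (by decide)) (h1 1 2 (by decide))) (h1 2 0 (by decide))
  rw [← map_mul, ← map_mul] at this
  refine (congrArg (· ∈ Gm (R1 K L c)) (funext fun i => Units.ext (LinearMap.ext fun v =>
    funext fun k => funext fun y => ?_))).mp this
  rw [Dv_apply, th_apply]
  fin_cases k <;> simp [rho, LinearMap.funLeft_apply]

end Pool.Agent.Work.MP_d2e081_al.Tri3
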