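import Pool.Agent.Work.MP_d2e081_al.Tri3.B
import Pool.Agent.Work.MP_d2e081_al.Rip2.D

/-! The large algebra, levels indexed by the natural numbers, and perfectness. -/

set_option autoImplicit false

namespace Pool.Agent.Work.MP_d2e081_al.Tri3

open Module Filter

open FreeGroup (of)

open Rips (rp approx qq qq_map JJ)

open scoped Classical

section
variable {K : Type} [Field K] {β γ : Type} {L : ℕ → Subgroup (FreeGroup β)} [∀ i, (L i).Normal]
  {c : FreeGroup γ →* FreeGroup β}

theorem rho_fin [∀ i, (L i).FiniteIndex] {g : FreeGroup β} (hg : ∀ᶠ n in atTop, g ∈ L n) :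
    rho K L g ∈ R0 K L := by
  obtain ⟨s, hs⟩ := eventually_atTop.1 hg
  have : rho K L g = 1 + ∑ i ∈ Finset.range s, Pi.single i (rho K L g i - 1) := by
    funext i
    rw [Pi.add_apply, Finset.sum_apply, Finset.sum_pi_single]
    split_ifs with h
    · simp
    · have : (g : FreeGroup β ⧸ L i) = 1 :=
        (QuotientGroup.eq_one_iff _).2 (hs i (by simpa using h))
      refine LinearMap.ext fun v => funext fun y => ?_
      simp [rho, LinearMap.funLeft_apply, this]
  rw [this]
  exact add_mem (one_mem _) (sum_mem fun i _ => single_mem3 i _)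

theorem rho_conj1 {g : FreeGroup β} (hg : ∀ d, rho K L (g * c d * g⁻¹) ∈ R1 K L c) {r : P3 K L}
    (hr : r ∈ R1 K L c) : rho K L g * r * rho K L g⁻¹ ∈ R1 K L c := by
  have h1 : rho K L g⁻¹ * rho K L g = 1 := by rw [← rho_mul, inv_mul_cancel, rho_one]
  have h2 : rho K L g * rho K L g⁻¹ = 1 := by rw [← rho_mul, mul_inv_cancel, rho_one]
  have h3 : ∀ d, rho K L g * rho K L (c d) * rho K L g⁻¹ ∈ R1 K L c := fun d => by
    rw [← rho_mul, ← rho_mul]
    exact hg d
  induction hr using Algebra.adjoin_induction with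
  | mem x hx =>
    obtain ⟨o | b | b, rfl⟩ := hx
    · exact R0_le c (rho_conj g (g0_mem o))
    · exact h3 _
    · exact h3 _
  | algebraMap a =>
    rw [← Algebra.commutes, mul_assoc, h2, mul_one]
    exact algebraMap_mem _ _
  | add x y _ _ hx hy =>
    rw [mul_add, add_mul]
    exact add_mem hx hy
  | mul x y _ _ hx hy =>
    have := mul_mem hx hy
    rwa [mul_assoc (_ * x), ← mul_assoc (rho K L g⁻¹), ← mul_assoc (rho K L g⁻¹), h1, one_mul,
      ← mul_assoc, mul_assoc _ x y] at this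

theorem bounded1 {r : P3 K L} (hr : r ∈ R1 K L c) :
    ∃ S : Finset (FreeGroup β × FreeGroup γ), ∀ i v y,
      (∀ s ∈ S, v ((s.1 : FreeGroup β ⧸ L i) * y * c s.2) = 0) → r i v y = 0 := by
  have h0 : ∀ r ∈ R0 K L, ∃ S : Finset (FreeGroup β × FreeGroup γ), ∀ i v y,
      (∀ s ∈ S, v ((s.1 : FreeGroup β ⧸ L i) * y * c s.2) = 0) → r i v y = 0 := fun r hr => by
    obtain ⟨S, hS⟩ := bounded hr
    refine ⟨S.image fun s => (s, 1), fun i v y h => hS i v y fun s hs => ?_⟩
    simpa using h (s, 1) (Finset.mem_image_of_mem _ hs)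
  have h1 : ∀ d, ∃ S : Finset (FreeGroup β × FreeGroup γ), ∀ i v y,
      (∀ s ∈ S, v ((s.1 : FreeGroup β ⧸ L i) * y * c s.2) = 0) → rho K L (c d) i v y = 0 :=
    fun d => ⟨{(1, d)}, fun i v y h => by
      simpa [rho, LinearMap.funLeft_apply] using h (1, d) (by simp)⟩
  induction hr using Algebra.adjoin_induction with
  | mem x hx =>
    obtain ⟨o | b | b, rfl⟩ := hx
    · exact h0 _ (g0_mem o)
    · exact h1 _
    · exact h1 _
  | algebraMap a => exact h0 _ (algebraMap_mem _ _)
  | add x y _ _ hx hy =>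
    obtain ⟨S, hS⟩ := hx
    obtain ⟨T, hT⟩ := hy
    refine ⟨S ∪ T, fun i v z h => ?_⟩
    rw [Pi.add_apply, LinearMap.add_apply, Pi.add_apply,
      hS i v z fun s hs => h s (Finset.mem_union_left _ hs),
      hT i v z fun s hs => h s (Finset.mem_union_right _ hs), add_zero]
  | mul x y _ _ hx hy =>
    obtain ⟨S, hS⟩ := hx
    obtain ⟨T, hT⟩ := hy
    refine ⟨Finset.image₂ (fun t s => (t.1 * s.1, s.2 * t.2)) T S, fun i v z h =>
      hS i _ z fun s hs => hT i v _ fun t ht => ?_⟩
    simpa [mul_assoc] using h _ (Finset.mem_image₂_of_mem ht hs)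

theorem th_conj1 {g : FreeGroup β} (hg : ∀ d, rho K L (g * c d * g⁻¹) ∈ R1 K L c) {x : G3 K L}
    (hx : x ∈ Gm (R1 K L c)) : th K L g * x * (th K L g)⁻¹ ∈ Gm (R1 K L c) := by
  refine (show Gm (R1 K L c) ≤ (Gm (R1 K L c)).comap (MulAut.conj (th K L g)).toMonoidHom from
    (Subgroup.closure_le _).2 ?_) hx
  rintro _ ⟨a, b, r, hr, rfl⟩
  refine Subgroup.subset_closure ⟨a, b, _, rho_conj1 hg hr, funext fun i => ?_⟩
  refine (Dm_conj (rp _ (g : FreeGroup β ⧸ L i)) a b (r i)).trans (congrArg (xe a b) ?_)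
  refine LinearMap.ext fun v => funext fun y => ?_
  simp [rho, rp, LinearMap.funLeft_apply]

theorem bounded4 {x : G3 K L} (hx : x ∈ Gm (R1 K L c)) :
    ∃ S : Finset (FreeGroup β × FreeGroup γ), ∀ i v y,
      (∀ s ∈ S, ∀ k, v k ((s.1 : FreeGroup β ⧸ L i) * y * c s.2) = 0) →
        ∀ k, (x i).val v k y = 0 := by
  have key : ∀ a b, ∀ r ∈ R1 K L c, ∃ S : Finset (FreeGroup β × FreeGroup γ), ∀ i v y,
      (∀ s ∈ S, ∀ k, v k ((s.1 : FreeGroup β ⧸ L i) * y * c s.2) = 0) →
        ∀ k, (X3 K L a b r i).val v k y = 0 := fun a b r hr => by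
    obtain ⟨S, hS⟩ := bounded1 hr
    refine ⟨insert 1 S, fun i v y h k => ?_⟩
    have h1 := h 1 (Finset.mem_insert_self _ _) k
    rw [Prod.fst_one, Prod.snd_one, map_one, QuotientGroup.mk_one, one_mul, mul_one] at h1
    have h2 := hS i (v b) y fun s hs => h s (Finset.mem_insert_of_mem hs) b
    by_cases hab : a = b
    · rw [X3, hab, xe_diag]
      exact h1
    · rw [X3, xe_apply hab, Pi.add_apply, Pi.add_apply, h1, zero_add]
      by_cases hk : k = a
      · rw [hk, Pi.single_eq_same, h2]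
      · rw [Pi.single_eq_of_ne hk, Pi.zero_apply]
  induction hx using Subgroup.closure_induction'' with
  | one => simpa [X3, xe_diag] using key 0 0 0 (zero_mem _)
  | mem x hx =>
    obtain ⟨a, b, r, hr, rfl⟩ := hx
    exact key a b r hr
  | inv_mem x hx =>
    obtain ⟨a, b, r, hr, rfl⟩ := hx
    have : (X3 K L a b r)⁻¹ = X3 K L a b (-r) := funext fun i => (xe_st.neg a b (r i)).symm
    rw [this]
    exact key a b _ (neg_mem hr)
  | mul x y _ _ hx hy =>
    obtain ⟨S, hS⟩ := hx
    obtain ⟨T, hT⟩ := hy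
    refine ⟨Finset.image₂ (fun t s => (t.1 * s.1, s.2 * t.2)) T S, fun i v z h =>
      hS i _ z fun s hs => hT i v _ fun t ht k => ?_⟩
    simpa [mul_assoc] using h _ (Finset.mem_image₂_of_mem ht hs) k

theorem th_bounded1 {g : FreeGroup β} (h : th K L g ∈ Gm (R1 K L c)) :
    ∃ S : Finset (FreeGroup β × FreeGroup γ), ∀ i (y : FreeGroup β ⧸ L i), ∃ s ∈ S,
      (s.1 : FreeGroup β ⧸ L i) * y * c s.2 = y * g := by
  obtain ⟨S, hS⟩ := bounded4 h
  refine ⟨S, fun i y => ?_⟩
  by_contra hc
  push Not at hc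
  have := hS i (fun _ => Pi.single (y * g) 1) y (fun s hs _ => Pi.single_eq_of_ne (hc s hs) _) 0
  rw [th_apply, Pi.single_eq_same] at this
  exact one_ne_zero (congrFun this 0)

end

theorem levels {α Q : Type} [Finite α] [Group Q] [Infinite Q] (π : FreeGroup α →* Q)
    (hπ : Function.Surjective π) (h : LEF Q) :
    ∃ (L : ℕ → Subgroup (FreeGroup (Option α))) (_ : ∀ i, (L i).Normal)
      (_ : ∀ i, (L i).FiniteIndex),
      (∀ w, π w = 1 → ∀ᶠ n in atTop, FreeGroup.map some w ∈ L n) ∧
      ∀ (w : FreeGroup α) (S : Finset (FreeGroup (Option α) × FreeGroup α)),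
        (∀ i (y : FreeGroup (Option α) ⧸ L i), ∃ s ∈ S, (s.1 : FreeGroup (Option α) ⧸ L i) * y *
          (FreeGroup.map some s.2 : FreeGroup (Option α)) =
          y * (FreeGroup.map some w : FreeGroup (Option α))) → ∃ s ∈ S, π s.2 = π w := by
  obtain ⟨P, _, _, p, hp⟩ := approx π hπ h
  refine ⟨fun n => (qq (p n)).ker, fun n => MonoidHom.normal_ker _,
    fun n => Subgroup.finiteIndex_ker _, fun w hw => (hp w).mono fun n e => ?_, fun w S hS => ?_⟩
  · change qq (p n) _ = 1
    rw [qq_map, e.2 hw, map_one]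
  · by_contra hw
    push Not at hw
    let x : Fin (S.card + 1) → FreeGroup α := fun k =>
      Function.surjInv hπ (Infinite.natEmbedding Q k)
    have hx : ∀ k l, π ((x k)⁻¹ * x l) = 1 → k = l := fun k l e => by
      rw [map_mul, map_inv, inv_mul_eq_one, Function.surjInv_eq hπ, Function.surjInv_eq hπ] at e
      exact Fin.ext ((Infinite.natEmbedding Q).injective e)
    obtain ⟨n, h1, h2⟩ := ((eventually_all.2 fun s : S => hp (w * s.1.2⁻¹)).and
      (eventually_all.2 fun k : Fin (S.card + 1) × Fin (S.card + 1) =>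
        hp ((x k.1)⁻¹ * x k.2))).exists
    choose s h3 h4 using fun k => hS n
      ((FreeGroup.map some (x k) * of none : FreeGroup (Option α)) : _ ⧸ (qq (p n)).ker)
    have h5 : ∀ k, qq (p n) (s k).1 none = some (p n (x k) * p n (w * (s k).2⁻¹)) := fun k => by
      have := h4 k
      rw [← eq_mul_inv_iff_mul_eq, mul_assoc, ← QuotientGroup.mk_inv, ← QuotientGroup.mk_mul,
        ← QuotientGroup.mk_mul, ← QuotientGroup.mk_mul, ← map_inv, ← map_mul, QuotientGroup.eq,
        MonoidHom.mem_ker, map_mul, map_inv, inv_mul_eq_one] at this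
      have h6 := DFunLike.congr_fun this (some 1)
      have h7 : qq (p n) (of none) = Equiv.swap none (some 1) := by simp [qq]
      have h8 : p n (w * (s k).2⁻¹) ≠ 1 := fun e => hw _ (h3 k) (by
        have := (h1 ⟨_, h3 k⟩).1 e
        rwa [map_mul, map_inv, mul_inv_eq_one, eq_comm] at this)
      generalize w * (s k).2⁻¹ = w' at h6 h8
      simpa [qq_map, h7, JJ, Equiv.swap_apply_of_ne_of_ne, h8] using h6
    have := Fintype.card_le_of_injective (fun k => (⟨s k, h3 k⟩ : S)) fun k l e => hx k l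
      ((h2 (k, l)).1 (by
        have h6 := h5 k
        rw [show s k = s l from congrArg Subtype.val e, h5 l, eq_comm] at h6
        rw [map_mul, map_inv, inv_mul_eq_one]
        exact mul_right_cancel (Option.some.inj h6)))
    simp at this

theorem perfect {Q : Type} [Group Q] [Group.FG Q]
    (h : ∀ M : Subgroup Q, M.FiniteIndex → M = ⊤) : commutator Q = ⊤ := by
  have hs : Function.Surjective (Abelianization.of : Q →* _) := QuotientGroup.mk_surjective
  have := Group.fg_of_surjective hs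
  have hp : ∀ n : ℕ, n ≠ 0 → ∀ a : Abelianization Q, ∃ b, b ^ n = a := fun n hn a => by
    have := Subgroup.finiteIndex_range_powMonoidHom_of_fg (Abelianization Q) hn
    have e := h ((powMonoidHom n).range.comap Abelianization.of) ⟨by
      rw [Subgroup.index_comap_of_surjective _ hs]
      exact this.index_ne_zero⟩
    obtain ⟨x, rfl⟩ := hs a
    exact (e ▸ Subgroup.mem_top x : x ∈ (powMonoidHom n).range.comap Abelianization.of)
  have : Module.Finite ℤ (Additive (Abelianization Q)) :=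
    Module.Finite.iff_addGroup_fg.2 inferInstance
  obtain ⟨r, h1, h2⟩ := Submodule.exists_sub_one_mem_and_smul_eq_zero_of_fg_of_le_smul
    (Ideal.span {(2 : ℤ)}) (⊤ : Submodule ℤ (Additive (Abelianization Q))) Module.Finite.fg_top
    fun a _ => by
      obtain ⟨b, hb⟩ := hp 2 two_ne_zero a.toMul
      have : a = (2 : ℤ) • Additive.ofMul b := by
        rw [← ofMul_zpow, zpow_ofNat, hb, ofMul_toMul]
      rw [this]
      exact Submodule.smul_mem_smul (Ideal.mem_span_singleton_self 2) trivial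
  have h3 : r.natAbs ≠ 0 := by
    rw [Ideal.mem_span_singleton] at h1
    omega
  refine top_unique fun x _ => ?_
  obtain ⟨b, hb⟩ := hp _ h3 (Abelianization.of x)
  rw [← Abelianization.ker_of, MonoidHom.mem_ker, ← hb, pow_natAbs_eq_one]
  exact congrArg Additive.toMul (h2 (Additive.ofMul b) trivial)

end Pool.Agent.Work.MP_d2e081_al.Tri3
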