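import Pool.Agent.Work.MP_d2e081_al.Tri3.C

/-! Assembly of the triple. -/

set_option autoImplicit false

namespace Pool.Agent.Work.MP_d2e081_al.Tri3

open Module Filter

open scoped Classical

open Pool.Agent.Work.MP_3b70de_al.E (K8)

section
variable {β : Type} {L : ℕ → Subgroup (FreeGroup β)} [∀ i, (L i).Normal] [∀ i, (L i).FiniteIndex]

omit [∀ i, (L i).Normal] in
theorem fin_level (n : ℕ) : Finite (End K8 (Fin 3 → Vn K8 L n))ˣ :=
  Finite.of_injective (fun g => (g.val : (Fin 3 → Vn K8 L n) → _))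
    fun _ _ h => Units.ext (DFunLike.coe_injective h)

omit [∀ i, (L i).Normal] in
theorem rf_sub3 (H : Subgroup (G3 K8 L)) : Group.ResiduallyFinite H :=
  Group.residuallyFinite_iff_exists_finiteIndex.2 fun g hg => by
    obtain ⟨i, hi⟩ := Function.ne_iff.1 (fun e => hg (Subtype.ext e) : g.1 ≠ 1)
    have := fin_level (L := L) i
    exact ⟨((Pi.evalMonoidHom _ i).comp H.subtype).ker, Subgroup.finiteIndex_ker _, hi⟩

theorem cong3 {R : Subalgebra K8 (P3 K8 L)} (hR : R0 K8 L ≤ R) {B : Subgroup (G3 K8 L)}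
    (h : Gm R ≤ B) (N : Subgroup (Gm R)) (hN : N.Normal) (hi : N.index ≠ 0) :
    ∃ M : Subgroup B, M.Normal ∧ M.index ≠ 0 ∧ M.comap (Subgroup.inclusion h) ≤ N := by
  have : N.FiniteIndex := ⟨hi⟩
  have := fin_level (L := L)
  obtain ⟨s, hs⟩ := exists_trunc3 hR N
  refine ⟨((MonoidHom.pi fun n : Fin s => Pi.evalMonoidHom
    (fun n => (End K8 (Fin 3 → Vn K8 L n))ˣ) n).comp B.subtype).ker, inferInstance,
    (Subgroup.finiteIndex_ker _).index_ne_zero, fun g hg => ?_⟩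
  have e : (⟨_, Gm_mono hR (tr3_mem (Gm_EL g.2) s)⟩ : Gm R) = 1 :=
    Subtype.ext (funext fun n => by
      change (if n < s then g.1 n else 1) = 1
      split_ifs with hn
      · exact congrFun hg ⟨n, hn⟩
      · rfl)
  have := hs g
  rwa [e, inv_one, one_mul] at this

theorem dense3 {R R' : Subalgebra K8 (P3 K8 L)} (hR : R0 K8 L ≤ R) (h : R ≤ R')
    (M : Subgroup (Gm R')) (hM : M.Normal) (hi : M.index ≠ 0) (x : Gm R') :
    ∃ g, ∃ m ∈ M, x = Subgroup.inclusion (Gm_mono h) g * m := by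
  have : M.FiniteIndex := ⟨hi⟩
  obtain ⟨s, hs⟩ := exists_trunc3 (hR.trans h) M
  exact ⟨⟨_, Gm_mono hR (tr3_mem (Gm_EL x.2) s)⟩, _, hs x, (mul_inv_cancel_left _ _).symm⟩

end

open CategoryTheory ProfiniteGrp in
theorem main {Γ Q : Type} [Group Γ] [Group.FG Γ] [Infinite Γ] (hΓ : LEF Γ) [Group Q] (π : Γ →* Q)
    (hπ : Function.Surjective π) [Group.FG π.ker] (hk : ⁅π.ker, π.ker⁆ = π.ker) :
    ∃ (G H : Type) (_ : Group G) (_ : Group H) (u : G →* H) (f : H →* Q),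
      Function.Injective u ∧ Function.Surjective f ∧ u.range = f.ker ∧
      Group.FG G ∧ Group.FG H ∧ Group.ResiduallyFinite G ∧ Group.ResiduallyFinite H ∧
      Kazhdan G ∧ HasFA G ∧
      Function.Injective (profiniteCompletion.map (GrpCat.ofHom u)).hom ∧
      ((∀ M : Subgroup Q, M.FiniteIndex → M = ⊤) →
        IsIso (profiniteCompletion.map (GrpCat.ofHom u)) ∧
        ∃ (G' : Type) (_ : Group G') (v : H →* G'), Function.Injective v ∧ Group.FG G' ∧
          Group.ResiduallyFinite G' ∧ Kazhdan G' ∧ HasFA G' ∧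
          IsIso (profiniteCompletion.map (GrpCat.ofHom v))) := by
  obtain ⟨α, _, p, hp⟩ := Group.fg_iff_exists_freeGroup_hom_surjective_finite.1 ‹Group.FG Γ›
  obtain ⟨L, _, _, ha, hb⟩ := levels p hp hΓ
  let F := FreeGroup α
  let j : F →* FreeGroup (Option α) := FreeGroup.map some
  obtain ⟨γ, _, q, hq⟩ := Group.fg_iff_exists_freeGroup_hom_surjective_finite.1 ‹Group.FG π.ker›
  let k : FreeGroup γ →* F := FreeGroup.lift fun a => Function.surjInv hp (q (FreeGroup.of a))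
  have k1 : ∀ d, p (k d) = q d := DFunLike.congr_fun (FreeGroup.ext_hom (p.comp k)
    (π.ker.subtype.comp q) fun a => by simp [k, Function.surjInv_eq hp])
  have k2 : ∀ w, π (p w) = 1 → ∃ d, p (w * (k d)⁻¹) = 1 := fun w hw => by
    obtain ⟨d, hd⟩ := hq ⟨p w, hw⟩
    exact ⟨d, by rw [map_mul, map_inv, k1, hd, mul_inv_cancel]⟩
  let c : FreeGroup γ →* FreeGroup (Option α) := j.comp k
  have := Fintype.ofFinite α
  have := Fintype.ofFinite γ
  obtain ⟨t⟩ : Nonempty (Tri K8 _ (Gm (R1 K8 L c))) := Gm_tri (g1 K8 L c)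
  obtain ⟨t'⟩ : Nonempty (Tri K8 _ (Gm (R1 K8 L j))) := Gm_tri (g1 K8 L j)
  have hG := t.fg
  have hr : ∀ w d, rho K8 L (j w * c d * (j w)⁻¹) ∈ R1 K8 L c := fun w d => by
    obtain ⟨e, he⟩ := k2 (w * k d * w⁻¹) (by
      rw [map_mul p, map_mul p, map_inv p, k1]
      exact (MonoidHom.normal_ker π).conj_mem _ (q d).2 _)
    have := mul_mem (R0_le c (rho_fin (K := K8) (ha _ he))) (rho_mem c e)
    rw [← rho_mul] at this
    simpa [c, j] using this
  let θ' : F →* G3 K8 L := (th K8 L).comp j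
  have t1 : ∀ w, p w = 1 → θ' w ∈ Gm (R1 K8 L c) := fun w hw =>
    Gm_mono (R0_le c) (th_fin (ha w hw))
  have t2 : ∀ w, π (p w) = 1 → θ' w ∈ Gm (R1 K8 L c) := fun w hw => by
    have : ⁅π.ker, π.ker⁆ ≤ ((Gm (R1 K8 L c)).comap θ').map p :=
      Subgroup.commutator_le.2 fun a ha b hb => by
        obtain ⟨d, hd⟩ := hq ⟨a, ha⟩
        obtain ⟨e, he⟩ := hq ⟨b, hb⟩
        refine ⟨k (d * e * d⁻¹ * e⁻¹), th_comm c d e, ?_⟩
        rw [map_mul k, map_mul k, map_mul k, map_inv k, map_inv k, map_mul, map_mul, map_mul,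
          map_inv, map_inv, k1, k1, hd, he, commutatorElement_def]
    obtain ⟨w', h1, h2⟩ := this (hk.ge hw)
    have := mul_mem (t1 (w * w'⁻¹) (by rw [map_mul, map_inv, h2, mul_inv_cancel])) h1
    rwa [← map_mul, inv_mul_cancel_right] at this
  let H : Subgroup (G3 K8 L) := Gm (R1 K8 L c) ⊔ θ'.range
  let u : Gm (R1 K8 L c) →* H := Subgroup.inclusion le_sup_left
  let θ : F →* H := θ'.codRestrict H fun w => Subgroup.mem_sup_right ⟨w, rfl⟩
  have hs : ∀ h : H, ∃ g w, h = u g * θ w := by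
    let T : Subgroup (G3 K8 L) :=
      { carrier := {x | ∃ g ∈ Gm (R1 K8 L c), ∃ w, x = g * θ' w}
        one_mem' := ⟨1, one_mem _, 1, by rw [map_one, mul_one]⟩
        mul_mem' := by
          rintro _ _ ⟨g, hg, w, rfl⟩ ⟨g', hg', w', rfl⟩
          refine ⟨_, mul_mem hg (th_conj1 (hr w) hg'), w * w', ?_⟩
          rw [map_mul]
          change _ = g * (θ' w * g' * (θ' w)⁻¹) * _
          group
        inv_mem' := by
          rintro _ ⟨g, hg, w, rfl⟩
          refine ⟨_, th_conj1 (hr w⁻¹) (inv_mem hg), w⁻¹, ?_⟩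
          change _ = θ' w⁻¹ * g⁻¹ * (θ' w⁻¹)⁻¹ * _
          rw [map_inv]
          group }
    have hT : H ≤ T := sup_le (fun g hg => ⟨g, hg, 1, by rw [map_one, mul_one]⟩) (by
      rintro _ ⟨w, rfl⟩
      exact ⟨1, one_mem _, w, (one_mul _).symm⟩)
    intro h
    obtain ⟨g, hg, w, e⟩ := hT h.2
    exact ⟨⟨g, hg⟩, w, Subtype.ext e⟩
  have hk : ∀ w g, u g = θ w → π (p w) = 1 := fun w g e => by
    obtain ⟨S, hS⟩ := th_bounded1 (K := K8)
      ((show g.1 = th K8 L (j w) from congrArg Subtype.val e) ▸ g.2)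
    obtain ⟨_, hs, e⟩ := hb w (S.image fun s => (s.1, k s.2)) fun i y =>
      let ⟨s, h1, h2⟩ := hS i y
      ⟨_, Finset.mem_image_of_mem _ h1, h2⟩
    obtain ⟨s, -, rfl⟩ := Finset.mem_image.1 hs
    rw [← e, k1]
    exact (q s.2).2
  have hn : u.range.Normal := ⟨by
    rintro _ ⟨g, rfl⟩ h
    obtain ⟨a, w, rfl⟩ := hs h
    refine ⟨a * ⟨_, th_conj1 (hr w) g.2⟩ * a⁻¹, Subtype.ext ?_⟩
    change a.1 * (θ' w * g.1 * (θ' w)⁻¹) * a.1⁻¹ = a.1 * θ' w * g.1 * (a.1 * θ' w)⁻¹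
    group⟩
  let ψ : F →* H ⧸ u.range := (QuotientGroup.mk' _).comp θ
  have hψ : Function.Surjective ψ := fun q => by
    obtain ⟨h, rfl⟩ := QuotientGroup.mk_surjective q
    obtain ⟨g, w, rfl⟩ := hs h
    refine ⟨w, ?_⟩
    rw [QuotientGroup.mk_mul, (QuotientGroup.eq_one_iff (N := u.range) (u g)).2 ⟨g, rfl⟩, one_mul]
    rfl
  have hψ' : ψ.ker ≤ (π.comp p).ker := fun w hw => by
    obtain ⟨g, hg⟩ := (QuotientGroup.eq_one_iff _).1 hw
    exact hk w g hg
  let f : H →* Q := (ψ.liftOfSurjective hψ ⟨π.comp p, hψ'⟩).comp (QuotientGroup.mk' _)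
  have f1 : ∀ w, f (θ w) = π (p w) := fun w => MonoidHom.liftOfRightInverse_comp_apply ψ _
    (Function.rightInverse_surjInv hψ) ⟨π.comp p, hψ'⟩ w
  have f2 : ∀ g, f (u g) = 1 := fun g => by
    rw [MonoidHom.comp_apply, QuotientGroup.mk'_apply,
      (QuotientGroup.eq_one_iff (N := u.range) (u g)).2 ⟨g, rfl⟩, map_one]
  have f3 : Function.Surjective f := fun q => by
    obtain ⟨w, rfl⟩ := (hπ.comp hp) q
    exact ⟨_, f1 w⟩
  have f4 : u.range = f.ker := le_antisymm (by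
    rintro _ ⟨g, rfl⟩
    exact f2 g) fun h hh => by
    obtain ⟨g, w, rfl⟩ := hs h
    rw [MonoidHom.mem_ker, map_mul, f1, f2, one_mul] at hh
    exact mul_mem ⟨g, rfl⟩ ⟨⟨_, t2 w hh⟩, rfl⟩
  refine ⟨Gm (R1 K8 L c), H, inferInstance, inferInstance, u, f, Subgroup.inclusion_injective _,
    f3, f4, hG, ?_, rf_sub3 _, rf_sub3 _, t.kazhdan, t.hasFA,
    Rips.inj_completion (cong3 (R0_le c) _), fun hQ => ?_⟩
  · exact (Group.fg_iff_subgroup_fg _).2 (((Group.fg_iff_subgroup_fg _).1 hG).sup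
      ((Group.fg_iff_subgroup_fg _).1 inferInstance))
  have i1 := isIso_completion (cong3 (R0_le c) (le_sup_left : _ ≤ H)) (Rips.dense_of_quot f3 f4 hQ)
  have r1 : R1 K8 L c ≤ R1 K8 L j := Algebra.adjoin_le (by
    rintro _ ⟨o | b | b, rfl⟩
    exacts [R0_le j (g0_mem o), rho_mem j _, rho_mem j _])
  have hH : H ≤ Gm (R1 K8 L j) := sup_le (Gm_mono r1) (by
    rintro _ ⟨w, rfl⟩
    have := Group.fg_of_surjective hπ
    have : commutator Q ≤ ((Gm (R1 K8 L j)).comap θ').map (π.comp p) :=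
      Subgroup.commutator_le.2 fun a _ b _ => by
        obtain ⟨d, rfl⟩ := (hπ.comp hp) a
        obtain ⟨e, rfl⟩ := (hπ.comp hp) b
        refine ⟨d * e * d⁻¹ * e⁻¹, th_comm j d e, ?_⟩
        rw [map_mul, map_mul, map_mul, map_inv, map_inv, commutatorElement_def]
        rfl
    obtain ⟨w', h1, h2⟩ := this ((perfect hQ).ge (Subgroup.mem_top (π (p w))))
    have := mul_mem (Gm_mono r1 (t2 (w * w'⁻¹) (by
      rw [map_mul, map_mul, map_inv, map_inv, ← h2]
      exact mul_inv_cancel _))) h1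
    rwa [← map_mul, inv_mul_cancel_right] at this)
  have i2 : IsIso (profiniteCompletion.map (GrpCat.ofHom u) ≫
      profiniteCompletion.map (GrpCat.ofHom (Subgroup.inclusion hH))) := by
    rw [← Functor.map_comp]
    exact isIso_completion (cong3 (R0_le c) (Gm_mono r1)) (dense3 (R0_le c) r1)
  exact ⟨i1, Gm (R1 K8 L j), inferInstance, Subgroup.inclusion hH, Subgroup.inclusion_injective _,
    t'.fg, rf_sub3 _, t'.kazhdan, t'.hasFA,
    IsIso.of_isIso_comp_left (profiniteCompletion.map (GrpCat.ofHom u)) _⟩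

end Pool.Agent.Work.MP_d2e081_al.Tri3
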